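import Pool.Agent.Helper37.KDB.Extra
import Pool.Agent.Helper37.KDB.St.D1
import Pool.Agent.Helper37.KDB.St.D2
import Pool.Agent.Helper37.KDB.St.D3
import Pool.Agent.Helper37.KDB.St.D4
import Pool.Agent.Helper37.KDB.St.D6

/-! Project KDB, piece D7: capture of the position. -/

set_option autoImplicit false

namespace KDB.I.D7

open MeasureTheory KDB
open scoped ENNReal

variable (p : Par)

theorem ell_pos (hp : p.Ok) : 0 < p.ell := by
  unfold Par.ell
  exact pow_pos (by have := hp.hL; omega) _

theorem rho_pos (hp : p.Ok) (k : ℕ) : 0 < p.rho k := by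
  unfold Par.rho
  exact pow_pos (by exact_mod_cast ell_pos p hp) _

theorem sz_nonneg (hp : p.Ok) (z : Nz p.d) : 0 ≤ p.sz z := by
  unfold Par.sz
  split_ifs
  · exact le_rfl
  · exact norm_nonneg _
  · exact mul_nonneg (Nat.cast_nonneg _) (rho_pos p hp _).le

theorem h_nonneg : 0 ≤ p.h := by
  unfold Par.h
  positivity

theorem Yp_succ (om : ℕ → Nz p.d) (T j : ℕ) :
    p.Yp om T (j + 1) = p.Yp om T j + (p.h * ((T : ℝ) - j - 1)) •
      p.jump j (om j) ((p.run om j).1 + p.h • (p.run om j).2) (p.run om j).2 := by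
  unfold Par.Yp
  rw [Par.run]
  unfold Par.step
  simp only
  push_cast
  rw [smul_add, show p.h * ((T : ℝ) - j) = p.h * ((T : ℝ) - (j + 1)) + p.h by ring, add_smul,
    show p.h * ((T : ℝ) - j - 1) = p.h * ((T : ℝ) - (j + 1)) by ring]
  abel

theorem cap_a (hp : p.Ok) (om : ℕ → Nz p.d) (hv : ∀ j, p.Valid j (om j)) (i T : ℕ)
    (hi : i < p.n) (hT : T % p.tau (i + 1) = p.L / 2 * p.tau i) (hT1 : p.tau i ≤ T)
    (hc : Clean p om i (T - p.tau i) T)
    (hpl : ∃ j ∈ Finset.Ico (T - p.tau i) (T - p.tau i + p.W i),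
      (om j).lab = i + 2 ∧ (om j).sb = true) :
    ∃ B : Fin p.d → ℤ, ‖(p.run om T).1 - p.xi (i + 1) • Par.toV B‖ ≤
      2 ^ p.nring om i (T - p.tau i) T * (2 + p.nse om i (T - p.tau i) T / p.rho i) *
        p.xi i := by
  have hrho : 0 < p.rho i := rho_pos p hp i
  have hL : (0 : ℝ) < (p.L : ℝ) ^ i := by
    have := hp.hL
    positivity
  have hxi : p.xi i = p.rho i * (p.L : ℝ) ^ i := xi_eq p i
  have hxi0 : 0 < p.xi i := by rw [hxi]; positivity
  have hW : p.W i ≤ p.tau i := by
    rw [← W_ell p i]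
    exact Nat.le_mul_of_pos_right _ (ell_pos p hp)
  have hwin : ∀ j ∈ Finset.Ico (T - p.tau i) T, (om j).lab = i + 2 →
      j ∈ Finset.Ico (T - p.tau i) (T - p.tau i + p.W i) := by
    intro j hj hlab
    rw [Finset.mem_Ico] at hj ⊢
    refine ⟨hj.1, ?_⟩
    by_contra hcon
    have h1 := winO p hp i T j hT hT1 (Finset.mem_Ico.2 ⟨by omega, hj.2⟩)
    have h2 := (hv j).2.1 (by omega)
    rw [hlab, Nat.add_sub_cancel] at h2
    rcases h2 with h2 | h2
    · exact h1.1 h2
    · exact h1.2 h2
  have key := doubling (fun j D => ∃ B : Fin p.d → ℤ,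
      ‖p.Yp om T j - p.xi (i + 1) • Par.toV B‖ ≤ D * p.xi i)
    (by
      rintro j D D' hD ⟨B, hB⟩
      exact ⟨B, hB.trans (mul_le_mul_of_nonneg_right hD hxi0.le)⟩)
    (T - p.tau i) T (fun j => (om j).lab = i + 2) (fun j => (om j).sb = true)
    (fun j => if p.lv (om j) ≤ i then p.sz (om j) / p.rho i else 0)
    (by
      intro j
      split_ifs
      · exact div_nonneg (sz_nonneg p hp _) hrho.le
      · exact le_rfl)
    (by
      intro j hj hring D hD
      exact (ring_a p hp om hv i T j hi hT hT1 (hwin j hj hring) hring).2 D hD)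
    (by
      intro j hj hring hplus
      obtain ⟨B, hB⟩ := (ring_a p hp om hv i T j hi hT hT1 (hwin j hj hring) hring).1 hplus
      exact ⟨B, by rw [one_mul]; exact hB⟩)
    (by
      intro j hj hring D hD
      obtain ⟨B, hB⟩ := hD
      refine ⟨B, ?_⟩
      have hcj := hc j hj
      have hlv : p.lv (om j) ≤ i := by
        unfold Par.lv
        split_ifs with h0 h1
        · exact Nat.zero_le _
        · have := hcj.1 h1
          unfold Par.lv at this
          rw [if_neg h0, if_pos h1] at this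
          exact this
        · have h2 : 2 ≤ (om j).lab := by omega
          have := hcj.2 h2
          omega
      rw [if_pos hlv]
      rw [Finset.mem_Ico] at hj
      have hjT : (j : ℝ) + 1 ≤ T := by exact_mod_cast hj.2
      have hjt : (T : ℝ) - j - 1 ≤ p.tau i := by
        have : T ≤ j + 1 + p.tau i := by omega
        have h3 : (T : ℝ) ≤ j + 1 + p.tau i := by exact_mod_cast this
        linarith
      have hcoef : |p.h * ((T : ℝ) - j - 1)| ≤ (p.L : ℝ) ^ i := by
        rw [abs_of_nonneg (mul_nonneg (h_nonneg p) (by linarith)), ← h_tau p hp i]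
        exact mul_le_mul_of_nonneg_left hjt (h_nonneg p)
      have hjump := jump_le p hp j (om j) (hv j)
        ((p.run om j).1 + p.h • (p.run om j).2) (p.run om j).2
      rw [Yp_succ]
      have h4 : ‖(p.h * ((T : ℝ) - j - 1)) •
          p.jump j (om j) ((p.run om j).1 + p.h • (p.run om j).2) (p.run om j).2‖ ≤
          p.sz (om j) / p.rho i * p.xi i := by
        rw [norm_smul, Real.norm_eq_abs, hxi]
        have h5 : p.sz (om j) / p.rho i * (p.rho i * (p.L : ℝ) ^ i) =
            (p.L : ℝ) ^ i * p.sz (om j) := by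
          field_simp
        rw [h5]
        exact mul_le_mul hcoef hjump (norm_nonneg _) hL.le
      calc ‖p.Yp om T j + (p.h * ((T : ℝ) - j - 1)) •
            p.jump j (om j) ((p.run om j).1 + p.h • (p.run om j).2) (p.run om j).2 -
            p.xi (i + 1) • Par.toV B‖
          = ‖(p.Yp om T j - p.xi (i + 1) • Par.toV B) + (p.h * ((T : ℝ) - j - 1)) •
            p.jump j (om j) ((p.run om j).1 + p.h • (p.run om j).2) (p.run om j).2‖ := by
            congr 1
            abel
        _ ≤ D * p.xi i + p.sz (om j) / p.rho i * p.xi i :=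
            (norm_add_le _ _).trans (add_le_add hB h4)
        _ = (D + p.sz (om j) / p.rho i) * p.xi i := by ring)
    (by
      obtain ⟨j, hj, h1, h2⟩ := hpl
      rw [Finset.mem_Ico] at hj
      exact ⟨j, Finset.mem_Ico.2 ⟨hj.1, by omega⟩, h1, h2⟩)
  obtain ⟨B, hB⟩ := key
  refine ⟨B, ?_⟩
  have hYT : p.Yp om T T = (p.run om T).1 := by
    unfold Par.Yp
    rw [sub_self, mul_zero, zero_smul, add_zero]
  rw [hYT] at hB
  refine hB.trans (mul_le_mul_of_nonneg_right ?_ hxi0.le)
  refine mul_le_mul_of_nonneg_left ?_ (by positivity)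
  refine add_le_add le_rfl ?_
  unfold Par.nse
  rw [Finset.sum_div]
  refine Finset.sum_le_sum fun j _ => ?_
  have h0 : 0 ≤ p.sz (om j) / p.rho i := div_nonneg (sz_nonneg p hp _) hrho.le
  split_ifs
  · exact h0
  · rw [zero_div]
  · exact le_rfl
  · rw [zero_div]

end KDB.I.D7
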